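import Pool.Agent.J4H81.GB.Stm

set_option autoImplicit false

/-! # Project GB: (REF) reflected functions -/

namespace Pool.Agent.J4H17.GB

open Finset MeasureTheory Filter
open Pool.Agent.J4H81.PT Pool.Agent.J4H32.MV Pool.Agent.J4H81.GB
open Pool.Agent.H807R2.Dav (ee norm_ee ee_add ee_zero ee_int ee_eq)

theorem ee_norm' (x : ℝ) : ‖ee x‖ = 1 := norm_ee x

theorem hat_rf (T : ℕ) (H : ℕ → ℝ) (α : ℝ) :
    ‖hat (cx (rf T H)) T α‖ = ‖hat (cx H) T (-α)‖ := by
  have h1 : hat (cx (rf T H)) T α = ee (((T : ℝ) - 1) * α) * hat (cx H) T (-α) := by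
    unfold hat
    rw [← Finset.sum_range_reflect, Finset.mul_sum]
    refine Finset.sum_congr rfl fun s hs => ?_
    have hs' : s < T := Finset.mem_range.1 hs
    have e1 : cx (rf T H) (T - 1 - s) = cx H s := by
      unfold cx rf
      rw [if_pos (by omega)]
      congr 2
      omega
    have e2 : ((T - 1 - s : ℕ) : ℝ) * α = ((T : ℝ) - 1) * α + (s : ℝ) * (-α) := by
      have e3 : ((T - 1 - s : ℕ) : ℝ) = (T : ℝ) - 1 - s := by
        have : T - 1 - s + (1 + s) = T := by omega
        have h := congrArg (fun n : ℕ => (n : ℝ)) this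
        push_cast at h
        linarith
      rw [e3]
      ring
    rw [e1, e2, ee_add]
    ring
  rw [h1, norm_mul, ee_norm', one_mul]

theorem MA_neg (P : ℕ) (δ α : ℝ) : -α ∈ MA P δ ↔ α ∈ MA P δ := by
  have key : ∀ β : ℝ, β ∈ MA P δ → -β ∈ MA P δ := by
    rintro β ⟨q, hq1, hq2, a, ha⟩
    refine ⟨q, hq1, hq2, -a, ?_⟩
    have e : -β - ((-a : ℤ) : ℝ) / q = -(β - a / q) := by
      push_cast
      ring
    rw [e, abs_neg]
    exact ha
  constructor
  · intro h
    have := key _ h
    rwa [neg_neg] at this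
  · exact key α

theorem hat_per (T : ℕ) (H : ℕ → ℝ) (α : ℝ) : hat (cx H) T (α + 1) = hat (cx H) T α := by
  unfold hat
  refine Finset.sum_congr rfl fun s _ => ?_
  have e1 : (s : ℝ) * (α + 1) = s * α + ((s : ℤ) : ℝ) := by
    push_cast
    ring
  rw [e1, ee_add, ee_int, mul_one]

theorem t_REF : S_REF := by
  intro T P δ H
  constructor
  · set f : ℝ → ℝ := (MA P δ).indicator (fun α => ‖hat (cx H) T α‖ ^ 2) with hf
    have e1 : (MA P δ).indicator (fun α => ‖hat (cx (rf T H)) T α‖ ^ 2) = fun α => f (-α) := by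
      funext α
      rw [hf]
      by_cases h : α ∈ MA P δ
      · rw [Set.indicator_of_mem h, Set.indicator_of_mem ((MA_neg P δ α).2 h), hat_rf]
      · rw [Set.indicator_of_notMem h, Set.indicator_of_notMem (fun h' => h ((MA_neg P δ α).1 h'))]
    rw [e1, intervalIntegral.integral_comp_neg]
    have hper : Function.Periodic f 1 := by
      intro α
      rw [hf]
      have hm := MA_per P δ α 1
      rw [Nat.cast_one] at hm
      by_cases h : α ∈ MA P δ
      · rw [Set.indicator_of_mem h, Set.indicator_of_mem (hm.2 h), hat_per]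
      · rw [Set.indicator_of_notMem h, Set.indicator_of_notMem (fun h' => h (hm.1 h'))]
    have h2 := hper.intervalIntegral_add_eq (-1) 0
    simpa using h2
  · intro m hm α hα
    rw [hat_rf]
    exact hm _ fun h => hα ((MA_neg P δ α).1 h)

end Pool.Agent.J4H17.GB
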